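import Pool.Agent.H820.F3.Stm
import Pool.Agent.H820.T6.ALG

set_option autoImplicit false

/-!
# Project F3 (helper820), part TERM: one term of the mixed part
-/

namespace Pool.Agent.H599.F3

open Matrix Complex ComplexConjugate Filter Topology
open scoped Manifold ContDiff
open Pool.Agent.H820.T6 (Z3 C4 M4 X nn)
open Pool.Agent.H820.F3

noncomputable section

/-! ## One variable -/

lemma db_mul {u v : ℂ → ℂ} {z : ℂ} (hu : DifferentiableAt ℝ u z) (hv : DifferentiableAt ℝ v z) :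
    db (fun w => u w * v w) z = u z * db v z + db u z * v z := by
  have h := (hu.hasFDerivAt.mul hv.hasFDerivAt).fderiv
  have e : (fun w => u w * v w) = u * v := rfl
  unfold db
  rw [e, h]
  simp
  ring

lemma db_sub {u v : ℂ → ℂ} {z : ℂ} (hu : DifferentiableAt ℝ u z) (hv : DifferentiableAt ℝ v z) :
    db (fun w => u w - v w) z = db u z - db v z := by
  have h := (hu.hasFDerivAt.sub hv.hasFDerivAt).fderiv
  have e : (fun w => u w - v w) = u - v := rfl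
  unfold db
  rw [e, h]
  simp
  ring

lemma db_add_const {u : ℂ → ℂ} {z : ℂ} (c : ℂ) :
    db (fun w => u w + c) z = db u z := by
  unfold db
  rw [fderiv_add_const]

lemma db_holo {u : ℂ → ℂ} {z : ℂ} (hu : DifferentiableAt ℂ u z) : db u z = 0 := by
  have h := (differentiableAt_complex_iff_differentiableAt_real.1 hu).2
  unfold db
  rw [h, smul_smul, I_mul_I]
  simp

lemma holo_of_db {D : Set ℂ} (hD : IsOpen D) {u : ℂ → ℂ} (hu : ContDiffOn ℝ ∞ u D)
    (h0 : ∀ z ∈ D, db u z = 0) : ContDiffOn ℂ ∞ u D := by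
  have h : DifferentiableOn ℂ u D := by
    intro z hz
    have h1 : DifferentiableAt ℝ u z :=
      (hu.differentiableOn (by simp)).differentiableAt (hD.mem_nhds hz)
    refine (differentiableAt_complex_iff_differentiableAt_real.2 ⟨h1, ?_⟩).differentiableWithinAt
    have h2 := h0 z hz
    unfold db at h2
    simp only [smul_eq_mul] at h2 ⊢
    linear_combination (-I) * h2 + fderiv ℝ u z I * I_mul_I
  exact h.contDiffOn hD

lemma db_comp {F γ : ℂ → ℂ} {z : ℂ} (hF : DifferentiableAt ℝ F (γ z))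
    (hγ : DifferentiableAt ℂ γ z) :
    db (fun w => F (γ w)) z = db F (γ z) * conj (deriv γ z) := by
  have h1 : HasFDerivAt γ _ z := hγ.hasDerivAt.hasFDerivAt.restrictScalars ℝ
  have h := (hF.hasFDerivAt.comp z h1).fderiv
  have e : (fun w => F (γ w)) = F ∘ γ := rfl
  unfold db
  rw [e, h]
  have hL : ∀ c : ℂ, (fderiv ℝ F (γ z)) c =
      (c.re : ℂ) * (fderiv ℝ F (γ z)) 1 + (c.im : ℂ) * (fderiv ℝ F (γ z)) I := by
    intro c
    have e2 : c = c.re • (1 : ℂ) + c.im • I := by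
      apply Complex.ext <;> simp
    conv_lhs => rw [e2]
    rw [map_add, map_smul, map_smul]
    simp
  simp only [ContinuousLinearMap.comp_apply, ContinuousLinearMap.coe_restrictScalars',
    smul_eq_mul]
  set L := fderiv ℝ F (γ z) with hLdef
  have e3 : conj (deriv γ z) = ((deriv γ z).re : ℂ) - ((deriv γ z).im : ℂ) * I := by
    apply Complex.ext <;> simp
  have h3 : L (deriv γ z) = _ := hL (deriv γ z)
  have h4 : L (I * deriv γ z) = _ := hL (I * deriv γ z)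
  have e4 : (ContinuousLinearMap.toSpanSingleton ℂ (deriv γ z)) 1 = deriv γ z := by simp
  have e5 : (ContinuousLinearMap.toSpanSingleton ℂ (deriv γ z)) I = I * deriv γ z := by simp
  rw [e3, e4, e5, h3, h4]
  have e6 : (I * deriv γ z).re = -(deriv γ z).im := by simp
  have e7 : (I * deriv γ z).im = (deriv γ z).re := by simp
  rw [e6, e7]
  push_cast
  linear_combination (((deriv γ z).im : ℂ) * L I) * I_mul_I

/-- `db F` is smooth -/
lemma db_smooth {D : Set ℂ} (hD : IsOpen D) {u : ℂ → ℂ} (hu : ContDiffOn ℝ ∞ u D) :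
    ContDiffOn ℝ ∞ (db u) D := by
  have h := hu.fderiv_of_isOpen hD (m := ∞) (by simp)
  unfold db
  exact (h.clm_apply contDiffOn_const).add ((h.clm_apply contDiffOn_const).const_smul I)

/-- the solutions `u` of `db u = db f * c` -/
lemma solve (C : Cur) (hC : IsCur C) (χ : C.G → ℂ → ℂ) (hS : Solv C χ) (F : ℂ → ℂ)
    (hF : ContDiffOn ℝ ∞ F C.D) (hFp : ∀ γ, ∃ c : ℂ, ∀ z ∈ C.D, F (C.act γ z) = F z + c)
    (c : ℂ → ℂ) (hc : ContDiffOn ℂ ∞ c C.D) (hcp : ∀ γ, ∀ z ∈ C.D, c (C.act γ z) = χ γ z * c z) :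
    ∃ u : ℂ → ℂ, ContDiffOn ℝ ∞ u C.D ∧ ContDiffOn ℂ ∞ (fun z => F z * c z - u z) C.D ∧
      (∀ z ∈ C.D, db u z = db F z * c z) ∧ ∀ γ, ∀ z ∈ C.D, u (C.act γ z) = χ γ z * u z := by
  have hD := hC.isOpen
  have hdF : ∀ z ∈ C.D, DifferentiableAt ℝ F z := fun z hz =>
    (hF.differentiableOn (by simp)).differentiableAt (hD.mem_nhds hz)
  have hdc : ∀ z ∈ C.D, DifferentiableAt ℂ c z := fun z hz =>
    (hc.differentiableOn (by simp)).differentiableAt (hD.mem_nhds hz)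
  have hcR : ContDiffOn ℝ ∞ c C.D := hc.restrict_scalars ℝ
  obtain ⟨u, hu, hud, hup⟩ := hS (fun z => db F z * c z) ((db_smooth hD hF).mul hcR) (by
    intro γ z hz
    have hz' := hC.maps γ z hz
    have hγ : DifferentiableAt ℂ (C.act γ) z :=
      ((hC.holo γ).differentiableOn (by simp)).differentiableAt (hD.mem_nhds hz)
    have h1 : db (fun w => F (C.act γ w)) z = db F z := by
      obtain ⟨k, hk⟩ := hFp γ
      have h2 : (fun w => F (C.act γ w)) =ᶠ[𝓝 z] fun w => F w + k := by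
        filter_upwards [hD.mem_nhds hz] with w hw using hk w hw
      have h3 : db (fun w => F (C.act γ w)) z = db (fun w => F w + k) z := by
        unfold db
        rw [h2.fderiv_eq]
      rw [h3, db_add_const]
    rw [db_comp (hdF _ hz') hγ] at h1
    rw [hcp γ z hz, ← h1]
    ring)
  have hdu : ∀ z ∈ C.D, DifferentiableAt ℝ u z := fun z hz =>
    (hu.differentiableOn (by simp)).differentiableAt (hD.mem_nhds hz)
  refine ⟨u, hu, holo_of_db hD ((hF.mul hcR).sub hu) ?_, hud, hup⟩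
  intro z hz
  rw [db_sub (u := fun z => F z * c z) ((hdF z hz).mul ((hdc z hz).restrictScalars ℝ)) (hdu z hz),
    db_mul (hdF z hz) ((hdc z hz).restrictScalars ℝ), db_holo (hdc z hz), hud z hz]
  ring

/-! ## The algebra -/

/-- the coefficients of a product of three linear factors -/
def SV (a0 b0 a1 b1 a2 b2 : ℂ) : C4 :=
  ![a0 * a1 * a2, b0 * a1 * a2 + a0 * b1 * a2 + a0 * a1 * b2,
    a0 * b1 * b2 + b0 * a1 * b2 + b0 * b1 * a2, b0 * b1 * b2]

def E0 (v : Z3) (a b : ℂ) : ℂ := v 0 * a ^ 2 + v 1 * a * b + conj (v 2) * b ^ 2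

def E1 (v : Z3) (a b : ℂ) : ℂ :=
  v 1 * a ^ 2 + (v 2 + conj (v 2)) * a * b - conj (v 1) * b ^ 2

def E2 (v : Z3) (a b : ℂ) : ℂ := conj (v 2) * a ^ 2 - conj (v 1) * a * b + conj (v 0) * b ^ 2

lemma key (v : Z3) (ai bi af bf aj bj al bl : ℂ) :
    SV ai bi aj bj al bl ⬝ᵥ (X v *ᵥ SV af bf aj bj al bl) =
      (ai * bf - bi * af) *
        (aj ^ 2 * E0 v al bl + aj * bj * E1 v al bl + bj ^ 2 * E2 v al bl) := by
  rw [Pool.Agent.H722.T6.X_mulVec]
  simp [SV, E0, E1, E2, dotProduct, Fin.sum_univ_four]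
  ring

lemma SV_ne {a0 b0 a1 b1 a2 b2 : ℂ} (h0 : a0 ≠ 0 ∨ b0 ≠ 0) (h1 : a1 ≠ 0 ∨ b1 ≠ 0)
    (h2 : a2 ≠ 0 ∨ b2 ≠ 0) : SV a0 b0 a1 b1 a2 b2 ≠ 0 := by
  intro h
  have e0 := congrFun h 0
  have e1 := congrFun h 1
  have e2 := congrFun h 2
  have e3 := congrFun h 3
  simp only [SV, Fin.isValue, cons_val_zero, cons_val_one, cons_val, Pi.zero_apply] at e0 e1 e2 e3
  by_cases c0 : a0 = 0 <;> by_cases c1 : a1 = 0 <;> by_cases c2 : a2 = 0 <;>
    simp_all

lemma SV_smul (c0 c1 c2 a0 b0 a1 b1 a2 b2 : ℂ) :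
    SV (c0 * a0) (c0 * b0) (c1 * a1) (c1 * b1) (c2 * a2) (c2 * b2) =
      (c0 * c1 * c2) • SV a0 b0 a1 b1 a2 b2 := by
  funext k
  fin_cases k <;> simp [SV] <;> ring

lemma SV_comb (F : ℂ) (a0 b0 af bf a1 b1 a2 b2 : ℂ) :
    SV (F * a0 - af) (F * b0 - bf) a1 b1 a2 b2 =
      F • SV a0 b0 a1 b1 a2 b2 - SV af bf a1 b1 a2 b2 := by
  funext k
  fin_cases k <;> simp [SV] <;> ring

lemma sv_eq (a b : Fin 3 → ℂ → ℂ) (z : Z3) {i j l : Fin 3} (hij : i ≠ j) (hil : i ≠ l)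
    (hjl : j ≠ l) :
    sv a b z = SV (a i (z i)) (b i (z i)) (a j (z j)) (b j (z j)) (a l (z l)) (b l (z l)) := by
  fin_cases i <;> fin_cases j <;> fin_cases l <;>
    first
    | exact absurd rfl hij
    | exact absurd rfl hil
    | exact absurd rfl hjl
    | (funext k; fin_cases k <;>
        simp [SV, sv, -mul_eq_mul_right_iff, -mul_eq_mul_left_iff] <;> ring)

lemma ch_eq (C : Fin 3 → Cur) (χ : ∀ i, (C i).G → ℂ → ℂ) (g : Gp C) (z : Z3) {i j l : Fin 3}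
    (hij : i ≠ j) (hil : i ≠ l) (hjl : j ≠ l) :
    ch C χ g z = χ i (g i) (z i) * χ j (g j) (z j) * χ l (g l) (z l) := by
  unfold ch
  rw [Fin.prod_univ_three]
  fin_cases i <;> fin_cases j <;> fin_cases l <;>
    first
    | exact absurd rfl hij
    | exact absurd rfl hil
    | exact absurd rfl hjl
    | (simp [-mul_eq_mul_right_iff, -mul_eq_mul_left_iff]; ring)
    | simp

/-! ## Several variables -/

lemma isOpen_Dm (C : Fin 3 → Cur) (hC : ∀ i, IsCur (C i)) : IsOpen (Dm C) := by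
  have : Dm C = ⋂ i, (fun z : Z3 => z i) ⁻¹' (C i).D := by
    ext z
    simp [Dm]
  rw [this]
  exact isOpen_iInter_of_finite fun i => (hC i).isOpen.preimage (continuous_apply i)

lemma pullR {C : Fin 3 → Cur} {i : Fin 3} {F : ℂ → ℂ} (hF : ContDiffOn ℝ ∞ F (C i).D) :
    ContDiffOn ℝ ∞ (fun z : Z3 => F (z i)) (Dm C) :=
  hF.comp (contDiff_apply ℝ ℂ i).contDiffOn fun _ hz => hz i

lemma pullC {C : Fin 3 → Cur} {i : Fin 3} {F : ℂ → ℂ} (hF : ContDiffOn ℂ ∞ F (C i).D) :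
    ContDiffOn ℂ ∞ (fun z : Z3 => F (z i)) (Dm C) :=
  hF.comp (contDiff_apply ℂ ℂ i).contDiffOn fun _ hz => hz i

lemma SVC {S : Set Z3} {a0 b0 a1 b1 a2 b2 : Z3 → ℂ} (h0 : ContDiffOn ℂ ∞ a0 S)
    (k0 : ContDiffOn ℂ ∞ b0 S) (h1 : ContDiffOn ℂ ∞ a1 S) (k1 : ContDiffOn ℂ ∞ b1 S)
    (h2 : ContDiffOn ℂ ∞ a2 S) (k2 : ContDiffOn ℂ ∞ b2 S) :
    ContDiffOn ℂ ∞ (fun z => SV (a0 z) (b0 z) (a1 z) (b1 z) (a2 z) (b2 z)) S := by
  rw [contDiffOn_pi]
  intro k
  fin_cases k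
  · exact (h0.mul h1).mul h2
  · exact (((k0.mul h1).mul h2).add ((h0.mul k1).mul h2)).add ((h0.mul h1).mul k2)
  · exact (((h0.mul k1).mul k2).add ((k0.mul h1).mul k2)).add ((k0.mul k1).mul h2)
  · exact (k0.mul k1).mul k2

lemma SVR {S : Set Z3} {a0 b0 a1 b1 a2 b2 : Z3 → ℂ} (h0 : ContDiffOn ℝ ∞ a0 S)
    (k0 : ContDiffOn ℝ ∞ b0 S) (h1 : ContDiffOn ℝ ∞ a1 S) (k1 : ContDiffOn ℝ ∞ b1 S)
    (h2 : ContDiffOn ℝ ∞ a2 S) (k2 : ContDiffOn ℝ ∞ b2 S) :
    ContDiffOn ℝ ∞ (fun z => SV (a0 z) (b0 z) (a1 z) (b1 z) (a2 z) (b2 z)) S := by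
  rw [contDiffOn_pi]
  intro k
  fin_cases k
  · exact (h0.mul h1).mul h2
  · exact (((k0.mul h1).mul h2).add ((h0.mul k1).mul h2)).add ((h0.mul h1).mul k2)
  · exact (((h0.mul k1).mul k2).add ((k0.mul h1).mul k2)).add ((k0.mul k1).mul h2)
  · exact (k0.mul k1).mul k2

lemma mvC {S : Set Z3} {F : Z3 → C4} (M : M4) (hF : ContDiffOn ℂ ∞ F S) :
    ContDiffOn ℂ ∞ (fun z => M *ᵥ F z) S :=
  (LinearMap.toContinuousLinearMap (Matrix.mulVecLin M)).contDiff.comp_contDiffOn hF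

lemma mvR {S : Set Z3} {F : Z3 → C4} (M : M4) (hF : ContDiffOn ℝ ∞ F S) :
    ContDiffOn ℝ ∞ (fun z => M *ᵥ F z) S :=
  ((LinearMap.toContinuousLinearMap (Matrix.mulVecLin M)).contDiff.restrict_scalars
    ℝ).comp_contDiffOn hF

lemma conjR {S : Set Z3} {F : Z3 → ℂ} (hF : ContDiffOn ℝ ∞ F S) :
    ContDiffOn ℝ ∞ (fun z => conj (F z)) S :=
  Complex.conjCLE.contDiff.comp_contDiffOn hF

lemma third : ∀ i j : Fin 3, i ≠ j → ∃ l : Fin 3, i ≠ l ∧ j ≠ l := by decide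

lemma EC {S : Set Z3} (v : Z3) {A B : Z3 → ℂ} (hA : ContDiffOn ℂ ∞ A S)
    (hB : ContDiffOn ℂ ∞ B S) : ContDiffOn ℂ ∞ (fun z => E0 v (A z) (B z)) S ∧
    ContDiffOn ℂ ∞ (fun z => E1 v (A z) (B z)) S ∧ ContDiffOn ℂ ∞ (fun z => E2 v (A z) (B z)) S :=
  ⟨((contDiffOn_const.mul (hA.pow 2)).add ((contDiffOn_const.mul hA).mul hB)).add
    (contDiffOn_const.mul (hB.pow 2)),
    ((contDiffOn_const.mul (hA.pow 2)).add ((contDiffOn_const.mul hA).mul hB)).sub
    (contDiffOn_const.mul (hB.pow 2)),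
    ((contDiffOn_const.mul (hA.pow 2)).sub ((contDiffOn_const.mul hA).mul hB)).add
    (contDiffOn_const.mul (hB.pow 2))⟩

lemma E0_mul (v : Z3) (c x y : ℂ) : E0 v (c * x) (c * y) = c ^ 2 * E0 v x y := by
  unfold E0
  ring

lemma E1_mul (v : Z3) (c x y : ℂ) : E1 v (c * x) (c * y) = c ^ 2 * E1 v x y := by
  unfold E1
  ring

lemma E2_mul (v : Z3) (c x y : ℂ) : E2 v (c * x) (c * y) = c ^ 2 * E2 v x y := by
  unfold E2
  ring

/-- the correction -/
def cor (φ : ℂ) (s : C4) : C4 := fun k => φ / nn s * conj (s k)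

lemma dot_cor (φ : ℂ) {s : C4} (hs : s ≠ 0) : s ⬝ᵥ cor φ s = φ := by
  have h := Pool.Agent.H722.T6.nn_ne hs
  have e : s ⬝ᵥ cor φ s = φ / nn s * nn s := by
    have h1 : φ / nn s * nn s = φ / nn s * ∑ k, s k * conj (s k) := rfl
    rw [h1, Finset.mul_sum]
    unfold cor dotProduct
    exact Finset.sum_congr rfl fun k _ => by ring
  rw [e, div_mul_cancel₀ _ h]

lemma nn_smul (c : ℂ) (s : C4) : nn (c • s) = c * conj c * nn s := by
  unfold nn
  rw [Finset.mul_sum]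
  refine Finset.sum_congr rfl fun k _ => ?_
  simp only [Pi.smul_apply, smul_eq_mul, map_mul]
  ring

lemma cor_smul {c : ℂ} (hc : c ≠ 0) (φ : ℂ) {s : C4} (hs : s ≠ 0) :
    c⁻¹ • cor (c ^ 2 * φ) (c • s) = cor φ s := by
  have h := Pool.Agent.H722.T6.nn_ne hs
  have hc' : conj c ≠ 0 := by simpa using hc
  funext k
  simp only [cor, nn_smul, Pi.smul_apply, smul_eq_mul, map_mul]
  field_simp

theorem t_term : S_term := by
  intro C χ a b hC hP hS1 hS2 i j hij f g β v hf hfp hg hβ hgp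
  obtain ⟨l, hil, hjl⟩ := third i j hij
  -- the functions of one variable
  have hF : ContDiffOn ℝ ∞ (fun z => (f z : ℂ)) (C i).D :=
    Complex.ofRealCLM.contDiff.comp_contDiffOn hf
  have hG : ContDiffOn ℝ ∞ (fun z => (g z : ℂ)) (C j).D :=
    Complex.ofRealCLM.contDiff.comp_contDiffOn hg
  have hFp : ∀ γ, ∃ c : ℂ, ∀ z ∈ (C i).D, (f ((C i).act γ z) : ℂ) = f z + c := by
    intro γ
    obtain ⟨c, hc⟩ := hfp γ
    exact ⟨c, fun z hz => by rw [hc z hz]; push_cast; rfl⟩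
  have hGp : ∀ γ, ∃ c : ℂ, ∀ z ∈ (C j).D, (g ((C j).act γ z) : ℂ) = g z + c := by
    intro γ
    refine ⟨-(β (sg C j γ) : ℂ), fun z hz => ?_⟩
    have h := hgp (sg C j γ) z hz
    simp only [sg, Pi.mulSingle_eq_same] at h
    rw [h]
    push_cast
    simp [sg, sub_eq_add_neg]
  obtain ⟨af, haf, hafC, -, hafp⟩ := solve (C i) (hC i) (χ i) (hS1 i) _ hF hFp (a i) (hP i).ha
    (hP i).aper
  obtain ⟨bf, hbf, hbfC, -, hbfp⟩ := solve (C i) (hC i) (χ i) (hS1 i) _ hF hFp (b i) (hP i).hb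
    (hP i).bper
  obtain ⟨p0, hp0, hp0C, -, hp0p⟩ := solve (C j) (hC j) _ (hS2 j) _ hG hGp (fun z => a j z ^ 2)
    ((hP j).ha.pow 2) (fun γ z hz => by rw [(hP j).aper γ z hz]; ring)
  obtain ⟨p1, hp1, hp1C, -, hp1p⟩ := solve (C j) (hC j) _ (hS2 j) _ hG hGp
    (fun z => a j z * b j z) ((hP j).ha.mul (hP j).hb)
    (fun γ z hz => by rw [(hP j).aper γ z hz, (hP j).bper γ z hz]; ring)
  obtain ⟨p2, hp2, hp2C, -, hp2p⟩ := solve (C j) (hC j) _ (hS2 j) _ hG hGp (fun z => b j z ^ 2)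
    ((hP j).hb.pow 2) (fun γ z hz => by rw [(hP j).bper γ z hz]; ring)
  have haR : ∀ k, ContDiffOn ℝ ∞ (a k) (C k).D := fun k => (hP k).ha.restrict_scalars ℝ
  have hbR : ∀ k, ContDiffOn ℝ ∞ (b k) (C k).D := fun k => (hP k).hb.restrict_scalars ℝ
  -- `w`
  have hw : ContDiffOn ℂ ∞ (fun z => a i z * bf z - b i z * af z) (C i).D := by
    have h1 : ContDiffOn ℂ ∞ (fun z => b i z * ((f z : ℂ) * a i z - af z) -
        a i z * ((f z : ℂ) * b i z - bf z)) (C i).D :=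
      ((hP i).hb.mul hafC).sub ((hP i).ha.mul hbfC)
    refine h1.congr fun z _ => ?_
    ring
  have hne : ∀ z ∈ Dm C, sv a b z ≠ 0 := by
    intro z hz
    rw [sv_eq a b z hij hil hjl]
    exact SV_ne ((hP i).ne _ (hz i)) ((hP j).ne _ (hz j)) ((hP l).ne _ (hz l))
  have hchne : ∀ γ, ∀ z ∈ Dm C, ch C χ γ z ≠ 0 := by
    intro γ z hz
    rw [ch_eq C χ γ z hij hil hjl]
    exact mul_ne_zero (mul_ne_zero ((hP i).χne _ _ (hz i)) ((hP j).χne _ _ (hz j)))
      ((hP l).χne _ _ (hz l))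
  have hsvC : ContDiffOn ℂ ∞ (sv a b) (Dm C) := by
    have h := SVC (pullC (hP i).ha) (pullC (hP i).hb) (pullC (hP j).ha) (pullC (hP j).hb)
      (pullC (hP l).ha) (pullC (hP l).hb)
    exact h.congr fun z _ => sv_eq a b z hij hil hjl
  have hsvR : ContDiffOn ℝ ∞ (sv a b) (Dm C) := hsvC.restrict_scalars ℝ
  have hsvR' := contDiffOn_pi.1 hsvR
  set sf : Z3 → C4 := fun z => SV (af (z i)) (bf (z i)) (a j (z j)) (b j (z j)) (a l (z l))
    (b l (z l)) with hsf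
  have hsfR : ContDiffOn ℝ ∞ sf (Dm C) := SVR (pullR haf) (pullR hbf) (pullR (haR j))
    (pullR (hbR j)) (pullR (haR l)) (pullR (hbR l))
  set w : Z3 → ℂ := fun z => a i (z i) * bf (z i) - b i (z i) * af (z i) with hwdef
  have hwC : ContDiffOn ℂ ∞ w (Dm C) := pullC hw
  obtain ⟨hE0, hE1, hE2⟩ := EC v (pullC (hP l).ha) (pullC (hP l).hb)
  set Φ : Z3 → ℂ := fun z => -(w z * (p0 (z j) * E0 v (a l (z l)) (b l (z l)) +
    p1 (z j) * E1 v (a l (z l)) (b l (z l)) + p2 (z j) * E2 v (a l (z l)) (b l (z l)))) with hΦ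
  have hΦR : ContDiffOn ℝ ∞ Φ (Dm C) :=
    ((hwC.restrict_scalars ℝ).mul ((((pullR hp0).mul (hE0.restrict_scalars ℝ)).add
      ((pullR hp1).mul (hE1.restrict_scalars ℝ))).add
        ((pullR hp2).mul (hE2.restrict_scalars ℝ)))).neg
  have hnnR : ContDiffOn ℝ ∞ (fun z => nn (sv a b z)) (Dm C) := by
    unfold nn
    exact ContDiffOn.sum fun k _ => (hsvR' k).mul (conjR (hsvR' k))
  have hcorR : ContDiffOn ℝ ∞ (fun z => cor (Φ z) (sv a b z)) (Dm C) := by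
    rw [contDiffOn_pi]
    intro k
    have h1 : ContDiffOn ℝ ∞ (fun z => (Φ z * (nn (sv a b z))⁻¹) * conj (sv a b z k)) (Dm C) :=
      (hΦR.mul (hnnR.inv fun z hz => Pool.Agent.H722.T6.nn_ne (hne z hz))).mul (conjR (hsvR' k))
    exact h1.congr fun z _ => by simp only [cor, div_eq_mul_inv]
  -- the transformation
  have hsvT : ∀ γ, ∀ z ∈ Dm C, sv a b (actm C γ z) = ch C χ γ z • sv a b z := by
    intro γ z hz
    rw [sv_eq a b _ hij hil hjl, sv_eq a b z hij hil hjl, ch_eq C χ γ z hij hil hjl]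
    simp only [actm]
    rw [(hP i).aper _ _ (hz i), (hP i).bper _ _ (hz i), (hP j).aper _ _ (hz j),
      (hP j).bper _ _ (hz j), (hP l).aper _ _ (hz l), (hP l).bper _ _ (hz l), SV_smul]
  have hsfT : ∀ γ, ∀ z ∈ Dm C, sf (actm C γ z) = ch C χ γ z • sf z := by
    intro γ z hz
    rw [ch_eq C χ γ z hij hil hjl]
    simp only [hsf, actm]
    rw [hafp _ _ (hz i), hbfp _ _ (hz i), (hP j).aper _ _ (hz j),
      (hP j).bper _ _ (hz j), (hP l).aper _ _ (hz l), (hP l).bper _ _ (hz l), SV_smul]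
  have hΦT : ∀ γ, ∀ z ∈ Dm C, Φ (actm C γ z) = ch C χ γ z ^ 2 * Φ z := by
    intro γ z hz
    rw [ch_eq C χ γ z hij hil hjl]
    simp only [hΦ, hwdef, actm]
    rw [hafp _ _ (hz i), hbfp _ _ (hz i), (hP i).aper _ _ (hz i), (hP i).bper _ _ (hz i),
      hp0p _ _ (hz j), hp1p _ _ (hz j), hp2p _ _ (hz j),
      (hP l).aper _ _ (hz l), (hP l).bper _ _ (hz l), E0_mul, E1_mul, E2_mul]
    ring
  refine ⟨fun z => (g (z j) : ℂ) • (X v *ᵥ sf z) + cor (Φ z) (sv a b z), ?_, ?_, ?_⟩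
  · exact ((pullR hG).smul (mvR (X v) hsfR)).add hcorR
  · have h1 : ContDiffOn ℂ ∞ (fun z : Z3 => w z *
        (((g (z j) : ℂ) * a j (z j) ^ 2 - p0 (z j)) * E0 v (a l (z l)) (b l (z l)) +
        ((g (z j) : ℂ) * (a j (z j) * b j (z j)) - p1 (z j)) * E1 v (a l (z l)) (b l (z l)) +
        ((g (z j) : ℂ) * b j (z j) ^ 2 - p2 (z j)) * E2 v (a l (z l)) (b l (z l)))) (Dm C) :=
      hwC.mul ((((pullC hp0C).mul hE0).add ((pullC hp1C).mul hE1)).add ((pullC hp2C).mul hE2))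
    refine h1.congr fun z hz => ?_
    rw [dotProduct_add, dotProduct_smul, dot_cor _ (hne z hz)]
    have h2 := key v (a i (z i)) (b i (z i)) (af (z i)) (bf (z i)) (a j (z j)) (b j (z j))
      (a l (z l)) (b l (z l))
    rw [← sv_eq a b z hij hil hjl] at h2
    simp only [hsf]
    rw [h2]
    simp only [hΦ, hwdef, smul_eq_mul]
    ring
  · intro m γ
    have h1 : ContDiffOn ℂ ∞ (fun z : Z3 => (β (sg C m γ) : ℂ) • (X v *ᵥ
        SV ((f (z i) : ℂ) * a i (z i) - af (z i)) ((f (z i) : ℂ) * b i (z i) - bf (z i))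
          (a j (z j)) (b j (z j)) (a l (z l)) (b l (z l)))) (Dm C) :=
      (mvC (X v) (SVC (pullC hafC) (pullC hbfC) (pullC (hP j).ha) (pullC (hP j).hb)
        (pullC (hP l).ha) (pullC (hP l).hb))).const_smul _
    refine h1.congr fun z hz => ?_
    set δ := sg C m γ with hδ
    have hc := hchne δ z hz
    have e1 : (g (actm C δ z j) : ℂ) = g (z j) - β δ := by
      have := hgp δ (z j) (hz j)
      simp only [actm]
      rw [this]
      push_cast
      rfl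
    simp only
    rw [e1, hsfT δ z hz, hsvT δ z hz, hΦT δ z hz, smul_add, cor_smul hc _ (hne z hz), SV_comb,
      ← sv_eq a b z hij hil hjl, mulVec_smul, mulVec_sub, mulVec_smul]
    change _ = (β δ : ℂ) • ((f (z i) : ℂ) • (X v *ᵥ sv a b z) - X v *ᵥ sf z)
    have e2 : (ch C χ δ z)⁻¹ * ((g (z j) : ℂ) - β δ) * ch C χ δ z = (g (z j) : ℂ) - β δ := by
      field_simp
    rw [smul_smul, smul_smul, e2]
    push_cast
    module

end

end Pool.Agent.H599.F3
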